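import Pool.Agent.Helper34.PU.Goals

set_option autoImplicit false

open Finset Function
open scoped Classical

namespace Pool.Agent.Helper42.PU

open Pool.Agent.Helper34.PU

/-- the `l`-th element of `Z`, or `d` -/
noncomputable def enZ {N : ℕ} (Z : Finset (Fin N)) (d : Fin N) (l : ℕ) : Fin N :=
  if h : l < Z.card then (Z.equivFin.symm ⟨l, h⟩ : Fin N) else d

/-- the number of `y` in `Z`, or `0` -/
noncomputable def idx {N : ℕ} (Z : Finset (Fin N)) (y : Fin N) : ℕ :=
  if h : y ∈ Z then (Z.equivFin ⟨y, h⟩ : ℕ) else 0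

theorem enZ_idx {N : ℕ} (Z : Finset (Fin N)) (d y : Fin N) (h : y ∈ Z) : enZ Z d (idx Z y) = y := by
  unfold enZ idx
  rw [dif_pos h]
  rw [dif_pos (Z.equivFin ⟨y, h⟩).2]
  simp

theorem idx_lt {N m : ℕ} (Z : Finset (Fin N)) (y : Fin N) (hm : 0 < m) (hZ : Z.card ≤ m) :
    idx Z y < m := by
  unfold idx
  split_ifs with h
  · exact lt_of_lt_of_le (Z.equivFin ⟨y, h⟩).2 hZ
  · exact hm

theorem tog : TogStmt := by
  intro β s T0 r T D N Q δ x f c κ q hD hδ hκ hcell hnum
  have hpos : 0 < numT s x f c κ q := by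
    have : (0 : ℝ) < (numT s x f c κ q : ℝ) := lt_of_lt_of_le (by positivity) hnum
    exact_mod_cast this
  set TT : Finset ((Fin T0 → Fin D) × (Idx T0 β → Fin N)) :=
    (univ : Finset ((Fin T0 → Fin D) × (Idx T0 β → Fin N))).filter
    (fun P => IsTemplate s x f c κ q P.1 P.2) with hTT
  have hTTc : TT.card = numT s x f c κ q := rfl
  obtain ⟨P0, hP0⟩ : TT.Nonempty := by
    rw [← Finset.card_pos, hTTc]; exact hpos
  let Z : Idx T0 β → (Fin T0 → Fin D) → Finset (Fin N) := fun I a =>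
    univ.filter (fun i => ∀ j ∈ I.1, x i (κ j) = a j)
  have hZc : ∀ I a, (Z I a).card ≤ 2 * D := by
    intro I a
    let â : Pt T D := fun t => if h : ∃ j, κ j = t then a h.choose else ⟨0, hD⟩
    have hâ : ∀ j, â (κ j) = a j := by
      intro j
      have h : ∃ j', κ j' = κ j := ⟨j, rfl⟩
      show (if h : ∃ j', κ j' = κ j then a h.choose else ⟨0, hD⟩) = a j
      rw [dif_pos h]
      rw [hκ h.choose_spec]
    have h1 : Z I a = cell x (I.1.image κ) â := by
      ext i
      simp only [Z, cell, mem_filter, mem_univ, true_and, Finset.mem_image, forall_exists_index,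
        and_imp, forall_apply_eq_imp_iff₂]
      constructor
      · intro h j hj; rw [hâ, h j hj]
      · intro h j hj; rw [← hâ, h j hj]
    have h2 := hcell (I.1.image κ) â (by rw [Finset.card_image_of_injective _ hκ, I.2])
    rw [← h1] at h2
    exact_mod_cast h2
  have hZdep : ∀ I (a a' : Fin T0 → Fin D), (∀ j ∈ I.1, a j = a' j) → Z I a = Z I a' := by
    intro I a a' h
    ext i
    simp only [Z, mem_filter, mem_univ, true_and]
    constructor
    · intro h1 j hj; rw [h1 j hj, h j hj]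
    · intro h1 j hj; rw [h1 j hj, h j hj]
  have h2D : 0 < 2 * D := by omega
  let en : Idx T0 β → (Fin T0 → Fin D) → Fin (2 * D) → Fin N := fun I a l =>
    enZ (Z I a) (P0.2 I) (l : ℕ)
  let enc : (Fin T0 → Fin D) × (Idx T0 β → Fin N) →
      (Fin (T0 + Fintype.card (Idx T0 β)) → Fin (2 * D)) := fun P =>
    Fin.addCases (fun i => ⟨(P.1 i : ℕ), by have := (P.1 i).2; omega⟩)
      (fun k => ⟨idx (Z ((Fintype.equivFin (Idx T0 β)).symm k) P.1)
        (P.2 ((Fintype.equivFin (Idx T0 β)).symm k)), idx_lt _ _ h2D (hZc _ _)⟩)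
  have enc1 : ∀ P i, ((enc P (Fin.castAdd _ i) : Fin (2 * D)) : ℕ) = P.1 i := by
    intro P i
    simp only [enc, Fin.addCases_left]
  have enc2 : ∀ P I, ((enc P (Fin.natAdd T0 (Fintype.equivFin (Idx T0 β) I)) : Fin (2 * D)) : ℕ) =
      idx (Z I P.1) (P.2 I) := by
    intro P I
    simp only [enc, Fin.addCases_right, Equiv.symm_apply_apply]
  have hmem : ∀ P ∈ TT, ∀ I, P.2 I ∈ Z I P.1 := by
    intro P hP I
    rw [hTT, mem_filter] at hP
    simp only [Z, mem_filter, mem_univ, true_and]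
    exact hP.2.1 I
  have hen : ∀ P ∈ TT, ∀ I, en I P.1 (enc P (Fin.natAdd T0 (Fintype.equivFin (Idx T0 β) I))) =
      P.2 I := by
    intro P hP I
    show enZ (Z I P.1) (P0.2 I) _ = _
    rw [enc2]
    exact enZ_idx _ _ _ (hmem P hP I)
  have hinj : Set.InjOn enc (TT : Set ((Fin T0 → Fin D) × (Idx T0 β → Fin N))) := by
    intro P hP P' hP' h
    have h1 : P.1 = P'.1 := by
      funext i
      apply Fin.ext
      rw [← enc1 P i, ← enc1 P' i, h]
    have h2 : P.2 = P'.2 := by
      funext I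
      rw [← hen P hP I, ← hen P' hP' I, h, h1]
    exact Prod.ext h1 h2
  refine ⟨en, TT.image enc, ?_, ?_, ?_⟩
  · intro I a a' l h
    show enZ (Z I a) (P0.2 I) l = enZ (Z I a') (P0.2 I) l
    rw [hZdep I a a' h]
  · rw [Finset.card_image_of_injOn hinj, hTTc]
    exact hnum
  · intro g hg
    rw [Finset.mem_image] at hg
    obtain ⟨P, hP, rfl⟩ := hg
    refine ⟨P.1, fun i => (enc1 P i).symm, ?_⟩
    have h1 : (fun I => en I P.1 (enc P (Fin.natAdd T0 (Fintype.equivFin (Idx T0 β) I)))) = P.2 :=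
      funext fun I => hen P hP I
    rw [h1]
    rw [hTT, mem_filter] at hP
    exact hP.2

end Pool.Agent.Helper42.PU
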